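import Pool.Agent.H31.Rb4

namespace Pool.Agent.Results.MP_0bef22_co.Mono

open Finset Filter Topology

/-- ordered solutions of `a x + b y = c z` in `[n]^3` -/
noncomputable def sol (a b c : ℤ) (n : ℕ) : Finset (ℤ × ℤ × ℤ) :=
  (Icc (1 : ℤ) n ×ˢ Icc (1 : ℤ) n ×ˢ Icc (1 : ℤ) n).filter fun p => a * p.1 + b * p.2.1 = c * p.2.2

/-- the least proportion of monochromatic solutions over all 3-colourings of `[n]` -/
noncomputable def mono (a b c : ℤ) (n : ℕ) : ℝ :=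
  sInf {r | ∃ f : ℤ → Fin 3, Set.SurjOn f (Set.Icc 1 n) Set.univ ∧
    r = (((sol a b c n).filter fun p =>
      f p.1 = f p.2.1 ∧ f p.2.1 = f p.2.2).card : ℝ) / (sol a b c n).card}

theorem result (a b c : ℤ) (ha : 0 < a) (hb : 0 < b) (hc : 0 < c) :
    ∃ τ : ℝ, Tendsto (mono a b c) atTop (𝓝 τ) := by
  obtain ⟨τ, h⟩ := H31.Rb.ratio_conv (w := fun i j k => if ¬ (i = j ∧ j = k) then 1 else 0)
    (fun i j k => by split_ifs <;> simp) (fun i j k => by split_ifs <;> simp) ha hb hc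
  obtain ⟨σ, s0, h'⟩ := H31.Rb.card_conv ha hb hc
  refine ⟨_, (h.const_sub 1).congr' ?_⟩
  filter_upwards [h'.eventually_const_lt s0, eventually_ge_atTop 3] with n hn h3
  have c0 : ((sol a b c n).card : ℝ) ≠ 0 := fun e => by
    simp only [H31.Rb.T, add_zero] at hn
    rw [sol] at e
    simp [e] at hn
  have e : ∀ f : ℤ → Fin 3, H31.Rb.W a b c (fun i j k => if ¬ (i = j ∧ j = k) then 1 else 0) n 0 f /
      (H31.Rb.T a b c n 0).card = 1 - (((sol a b c n).filter fun p =>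
      f p.1 = f p.2.1 ∧ f p.2.1 = f p.2.2).card : ℝ) / (sol a b c n).card := fun f => by
    have := card_filter_add_card_filter_not (s := sol a b c n)
      fun p => f p.1 = f p.2.1 ∧ f p.2.1 = f p.2.2
    rw [eq_sub_iff_add_eq', show H31.Rb.T a b c n 0 = sol a b c n by simp [H31.Rb.T, sol],
      H31.Rb.W, show H31.Rb.T a b c n 0 = sol a b c n by simp [H31.Rb.T, sol], sum_boole,
      ← add_div, div_eq_one_iff_eq c0]
    exact_mod_cast this
  simp only [e]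
  obtain ⟨S, hS⟩ : ∃ S, S = {r | ∃ f : ℤ → Fin 3, Set.SurjOn f (Set.Icc 1 n) Set.univ ∧
    r = (((sol a b c n).filter fun p =>
      f p.1 = f p.2.1 ∧ f p.2.1 = f p.2.2).card : ℝ) / (sol a b c n).card} := ⟨_, rfl⟩
  have ne : S.Nonempty := hS ▸ ⟨_, fun x => if x = 1 then 0 else if x = 2 then 1 else 2,
    fun i _ => ⟨(i : ℕ) + 1, ⟨by omega, by omega⟩, by fin_cases i <;> rfl⟩, rfl⟩
  have bd : BddBelow S := hS ▸ ⟨0, by rintro _ ⟨f, -, rfl⟩; positivity⟩
  rw [mono, ← hS, sub_eq_iff_eq_add, ← sub_eq_iff_eq_add']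
  refine (Antitone.map_csInf_of_continuousAt (f := fun x : ℝ => 1 - x) (by fun_prop)
    (fun x y h => sub_le_sub_left h 1) ne bd).trans ?_
  congr 1
  ext r
  rw [hS]
  constructor
  · rintro ⟨_, ⟨f, hf, rfl⟩, rfl⟩
    exact ⟨f, hf, rfl⟩
  · rintro ⟨f, hf, rfl⟩
    exact ⟨_, ⟨f, hf, rfl⟩, rfl⟩

end Pool.Agent.Results.MP_0bef22_co.Mono
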