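import Pool.Agent.H31.Rb4

namespace Pool.Agent.Results.MP_0bef22_co.Rainbow

open Finset Filter Topology

/-- ordered solutions of `a x + b y = c z` in `[n]^3` -/
noncomputable def sol (a b c : ℤ) (n : ℕ) : Finset (ℤ × ℤ × ℤ) :=
  (Icc (1 : ℤ) n ×ˢ Icc (1 : ℤ) n ×ˢ Icc (1 : ℤ) n).filter fun p => a * p.1 + b * p.2.1 = c * p.2.2

/-- the largest proportion of rainbow solutions over all 3-colourings of `[n]` -/
noncomputable def rb (a b c : ℤ) (n : ℕ) : ℝ :=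
  sSup {r | ∃ f : ℤ → Fin 3, Set.SurjOn f (Set.Icc 1 n) Set.univ ∧
    r = (((sol a b c n).filter fun p =>
      f p.1 ≠ f p.2.1 ∧ f p.1 ≠ f p.2.2 ∧ f p.2.1 ≠ f p.2.2).card : ℝ) / (sol a b c n).card}

theorem result (a b c : ℤ) (ha : 0 < a) (hb : 0 < b) (hc : 0 < c) :
    ∃ τ : ℝ, Tendsto (rb a b c) atTop (𝓝 τ) := by
  have := H31.Rb.ratio_conv (w := fun i j k => if i ≠ j ∧ i ≠ k ∧ j ≠ k then 1 else 0)
    (fun i j k => by split_ifs <;> simp) (fun i j k => by split_ifs <;> simp) ha hb hc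
  unfold rb sol
  simpa only [H31.Rb.W, H31.Rb.T, add_zero, sum_boole] using this

end Pool.Agent.Results.MP_0bef22_co.Rainbow
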